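import Pool.Agent.K7.H50.LL.Even

set_option autoImplicit false

/-!
# MP_91b7ff_nt, even exponents `k ≥ 6`: explicit lower bounds in all windows of length `C log log T`

Unconditionally, for every even `k ≥ 6` and every `c < K_k A_k / (k²/4)!` there is a constant `C` such that for all
large `T` and every `U ≥ C log log T` (no upper restriction on `U`) the integral of `|ζ(1/2 + it)|^k` over
`[T, T + U]` is at least `c U (log U)^(k²/4)`. Here `A_k` is the arithmetic factor of the Keating-Snaith conjecture,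
`K_k = 2^(-k²/4) binom(k²/4, k²/16)²` when `4 ∣ k`, `K_6 = 8/5`, `K_10 = 26`, and `K_k = (4/3)^(3k²/8) / k⁴` for all
other `k`. All these constants are larger than `1`, and they grow exponentially in `k²`.

Proof: Hölder's inequality for the integral of a power `ζ^j` twisted by finite Dirichlet series at powers of `U`, as
in the starting files for longer windows (for `4 ∣ k` one compares `ζ^(k/4)` with two polynomials of length
`sqrt U`). The weight is `w(s) = exp (- exp ((a - z) / B) - exp ((z - b) / B))`, `z = - i (s - 1/2)`, an entire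
function that is close to the indicator function of the window on a strip around the critical line and decays doubly
exponentially outside the window; with it the twisted integrals are evaluated in windows of length `C log log T`.
-/

namespace Pool.Agent.Results.MP_91b7ff_nt.EvenLogLog

open Filter MeasureTheory

/-- the arithmetic factor of the conjectured constant `c_k`,
`A_k = ∏_p (1 - 1/p)^(k²/4) ∑_m d(m)² p^(-m)` with `d(m) = ∏_{i < m} (k/2 + i) / (i + 1)` -/
noncomputable def A (k : ℕ) : ℝ :=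
  ∏' p : Nat.Primes, ((1 - 1 / (p : ℝ)) ^ ((k : ℝ) ^ 2 / 4) *
    ∑' m : ℕ, (∏ i ∈ Finset.range m, ((k : ℝ) / 2 + i) / ((i : ℝ) + 1)) ^ 2 * (1 / (p : ℝ)) ^ m)

/-- the explicit constants -/
noncomputable def K (k : ℕ) : ℝ :=
  if 4 ∣ k then (1 / 2) ^ (k ^ 2 / 4) * ((k ^ 2 / 4).choose (k ^ 2 / 16) : ℝ) ^ 2
  else if k = 6 then 8 / 5 else if k = 10 then 26 else (4 / 3) ^ (3 * (k : ℝ) ^ 2 / 8) / (k : ℝ) ^ 4

theorem A_eq (k : ℕ) : A k = Pool.Agent.H306R2.aF ((k : ℝ) / 2) := by
  unfold A Pool.Agent.H306R2.aF Pool.Agent.H306R2.lc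
  rw [show ((k : ℝ) / 2) ^ 2 = (k : ℝ) ^ 2 / 4 by ring]

theorem result (k : ℕ) (hk : Even k) (h6 : 6 ≤ k) :
    0 < A k ∧
    ∀ c : ℝ, c < K k * (A k / Real.Gamma ((k : ℝ) ^ 2 / 4 + 1)) →
      ∃ C : ℝ, 0 < C ∧ ∀ᶠ T : ℝ in atTop, ∀ U : ℝ, C * Real.log (Real.log T) ≤ U →
        c * (U * Real.log U ^ ((k : ℝ) ^ 2 / 4)) ≤
          ∫ t in T..(T + U), ‖riemannZeta (1 / 2 + t * Complex.I)‖ ^ k := by
  rw [A_eq]
  have h1 : (0 : ℝ) < k := by exact_mod_cast (by omega : 0 < k)
  exact ⟨Pool.Agent.H306R2.aF_pos (by positivity), fun c hc => Pool.Agent.K7.H50.LL.even_LL k hk h6 c hc⟩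

end Pool.Agent.Results.MP_91b7ff_nt.EvenLogLog
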