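import Pool.Agent.K7.H50.LL.Odd
import Pool.Agent.K7.H50.MZ.Win

set_option autoImplicit false

/-!
# MP_91b7ff_nt, all odd exponents `k`: explicit lower bounds in all windows of length `C log log T`

Unconditionally, for every odd `k ≥ 1` there is a constant `C` such that for all large `T` and every
`U ≥ C log log T` (no upper restriction on `U`) the integral of `|ζ(1/2 + it)|^k` over `[T, T + U]` is at least
`K_k A_k / Γ(k²/4 + 1) * U (log U)^(k²/4)`, where `A_k` is the arithmetic factor of the Keating-Snaith conjecture and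
`K_1 = 29/50`, `K_3 = 7/10`, `K_5 = 4/5`, `K_7 = 1`, `K_9 = 20`, `K_k = (4/3)^(3k²/8) / k⁴` for `k ≥ 11`.

Proof. For `k ≥ 3`: Hölder's inequality for the integral of a power `ζ^j`, `j < k / 2`, twisted by several finite
Dirichlet series (truncations of fractional powers of `ζ` at powers of `U`), as in the starting files for longer
windows. For `k = 1`: `ζ` is compared with the square of the truncation `P` of `ζ^{1/2}` at `U / (log U)^2`; the
integrals of the modulus of `(s - 1) / s (ζ(s) - P(s)^2) w(s)` over vertical lines are log-convex in the real part, and a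
line far to the right gives the saving `e^{-δ}` on the line `1/2 + δ / log U`. In both cases the weight is
`w(s) = exp (- exp ((a - z) / B) - exp ((z - b) / B))`, `z = - i (s - 1/2)`, an entire function that is close to
the indicator function of the window on a strip around the critical line and decays doubly exponentially outside
the window; this allows windows of length `C log log T`.
-/

namespace Pool.Agent.Results.MP_91b7ff_nt.OddLogLog

open Filter MeasureTheory

/-- the arithmetic factor of the conjectured constant `c_k`,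
`A_k = ∏_p (1 - 1/p)^(k²/4) ∑_m d(m)² p^(-m)` with `d(m) = ∏_{i < m} (k/2 + i) / (i + 1)` -/
noncomputable def A (k : ℕ) : ℝ :=
  ∏' p : Nat.Primes, ((1 - 1 / (p : ℝ)) ^ ((k : ℝ) ^ 2 / 4) *
    ∑' m : ℕ, (∏ i ∈ Finset.range m, ((k : ℝ) / 2 + i) / ((i : ℝ) + 1)) ^ 2 * (1 / (p : ℝ)) ^ m)

/-- the explicit constants -/
noncomputable def K (k : ℕ) : ℝ :=
  if k = 1 then 29 / 50 else if k = 3 then 7 / 10 else if k = 5 then 4 / 5 else if k = 7 then 1 else
    if k = 9 then 20 else (4 / 3) ^ (3 * (k : ℝ) ^ 2 / 8) / (k : ℝ) ^ 4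

theorem A_eq (k : ℕ) : A k = Pool.Agent.H306R2.aF ((k : ℝ) / 2) := by
  unfold A Pool.Agent.H306R2.aF Pool.Agent.H306R2.lc
  rw [show ((k : ℝ) / 2) ^ 2 = (k : ℝ) ^ 2 / 4 by ring]

theorem result (k : ℕ) (hk : Odd k) :
    0 < K k * (A k / Real.Gamma ((k : ℝ) ^ 2 / 4 + 1)) ∧
    ∃ C : ℝ, 0 < C ∧ ∀ᶠ T : ℝ in atTop, ∀ U : ℝ, C * Real.log (Real.log T) ≤ U →
      K k * (A k / Real.Gamma ((k : ℝ) ^ 2 / 4 + 1)) * (U * Real.log U ^ ((k : ℝ) ^ 2 / 4)) ≤
        ∫ t in T..(T + U), ‖riemannZeta (1 / 2 + t * Complex.I)‖ ^ k := by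
  have hk0 : 0 < k := by obtain ⟨m, hm⟩ := hk; omega
  refine ⟨?_, ?_⟩
  · rw [A_eq]
    have h1 : (0 : ℝ) < k := by exact_mod_cast hk0
    have h2 : 0 < Pool.Agent.H306R2.aF ((k : ℝ) / 2) := Pool.Agent.H306R2.aF_pos (by positivity)
    have h4 : 0 < Real.Gamma ((k : ℝ) ^ 2 / 4 + 1) := Real.Gamma_pos_of_pos (by positivity)
    have h5 : 0 < K k := by
      unfold K
      split_ifs <;> positivity
    positivity
  · by_cases h1 : k = 1
    · subst h1
      obtain ⟨C, hC, h⟩ := Pool.Agent.K7.H50.MZ.first_loglog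
      refine ⟨C, hC, ?_⟩
      have e0 : K 1 = 29 / 50 := by unfold K; rw [if_pos rfl]
      have e1 : (((1 : ℕ) : ℝ)) ^ 2 / 4 = 1 / 4 := by norm_num
      have e2 : Pool.Agent.R313.FM.A0 = A 1 / Real.Gamma (1 / 4 + 1) := by
        unfold Pool.Agent.R313.FM.A0
        rw [A_eq, show Pool.Agent.R313.FM.kh ^ 2 = 1 / 4 by unfold Pool.Agent.R313.FM.kh; norm_num,
          show (((1 : ℕ) : ℝ)) / 2 = Pool.Agent.R313.FM.kh by unfold Pool.Agent.R313.FM.kh; norm_num]
      rw [e0, e1]
      filter_upwards [h] with T hT U hU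
      have h3 := hT U hU
      rw [e2] at h3
      have e3 : ∫ t in T..(T + U), Pool.Agent.W184.zn (1 / 2) t =
          ∫ t in T..(T + U), ‖riemannZeta (1 / 2 + t * Complex.I)‖ ^ 1 := by
        refine intervalIntegral.integral_congr fun t _ => ?_
        show Pool.Agent.W184.zn (1 / 2) t = ‖riemannZeta (1 / 2 + t * Complex.I)‖ ^ 1
        unfold Pool.Agent.W184.zn
        push_cast
        rw [pow_one]
      rw [e3] at h3
      refine le_trans (le_of_eq ?_) h3
      ring
    · have h3 : 3 ≤ k := by obtain ⟨m, hm⟩ := hk; omega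
      rw [A_eq]
      have e0 : K k = Pool.Agent.K7.H50.LL.cst k := by
        unfold K Pool.Agent.K7.H50.LL.cst
        rw [if_neg h1]
      rw [e0]
      exact Pool.Agent.K7.H50.LL.odd_LL k hk h3

end Pool.Agent.Results.MP_91b7ff_nt.OddLogLog
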