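import Pool.Agent.K7.H50.MU.A6

set_option autoImplicit false

/-!
# MP_91b7ff_nt, exponent `k = 1`: explicit upper bound in all windows of length `T^θ`, `θ > 1/2`

Unconditionally, for every `1/2 < θ ≤ 1`, all large `T` and every interval `[U, U + H]` inside `[0, T]` with
`H ≥ T^θ`, the integral of `|ζ(1/2 + it)|` over `[U, U + H]` is at most
`(5/2) θ^(5/4) / (2θ - 1) * A / Γ(5/4) * H (log T)^(1/4)`, where `A` is the arithmetic factor of the Keating-Snaith
conjecture.

Proof: `ζ` is compared with the square of the truncation `P` of `ζ^{1/2}` at a length close to `T^θ`. The integrals of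
the modulus of `(s - 1) / s (ζ(s) - P(s)^2) w(s)` over vertical lines are log-convex in the real part, where `w` is an
entire function of double exponential type close to the indicator function of the window. The comparison
starts on the line `1/2 - (3/2) / log (T^θ)`, where `ζ` is controlled by the functional equation; since `θ > 1/2` the loss
`T^(2Δ)` in the functional equation is smaller than the gain from convexity, and the resulting inequality closes up.
-/

namespace Pool.Agent.Results.MP_91b7ff_nt.ShortWindowsUpper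

open Filter MeasureTheory

/-- the arithmetic factor of the conjectured constant `c_1`,
`A = ∏_p (1 - 1/p)^(1/4) ∑_m d(m)² p^(-m)` with `d(m) = ∏_{i < m} (1/2 + i) / (i + 1)` -/
noncomputable def A : ℝ :=
  ∏' p : Nat.Primes, ((1 - 1 / (p : ℝ)) ^ ((1 : ℝ) / 4) *
    ∑' m : ℕ, (∏ i ∈ Finset.range m, ((1 : ℝ) / 2 + i) / ((i : ℝ) + 1)) ^ 2 * (1 / (p : ℝ)) ^ m)

theorem A_eq : A = Pool.Agent.H306R2.aF Pool.Agent.R313.FM.kh := by
  unfold A Pool.Agent.H306R2.aF Pool.Agent.H306R2.lc Pool.Agent.R313.FM.kh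
  norm_num

theorem result (θ : ℝ) (h1 : 1 / 2 < θ) (h2 : θ ≤ 1) :
    ∀ᶠ T : ℝ in atTop, ∀ U H : ℝ, 0 ≤ U → U + H ≤ T → T ^ θ ≤ H →
      ∫ t in U..(U + H), ‖riemannZeta (1 / 2 + t * Complex.I)‖ ≤
        5 / 2 * (θ ^ ((5 : ℝ) / 4) / (2 * θ - 1)) * (A / Real.Gamma (5 / 4)) *
          (H * Real.log T ^ ((1 : ℝ) / 4)) := by
  have e2 : Pool.Agent.R313.FM.A0 = A / Real.Gamma (5 / 4) := by
    unfold Pool.Agent.R313.FM.A0
    rw [A_eq, show Pool.Agent.R313.FM.kh ^ 2 = 1 / 4 by unfold Pool.Agent.R313.FM.kh; norm_num]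
    norm_num
  filter_upwards [Pool.Agent.K7.H50.MU.upper_theta θ h1 h2] with T hT U H hU hUH hH
  have h3 := hT U H hU hUH hH
  rw [e2] at h3
  refine le_trans (le_of_eq ?_) h3
  refine intervalIntegral.integral_congr fun t _ => ?_
  show ‖riemannZeta (1 / 2 + t * Complex.I)‖ = Pool.Agent.W184.zn (1 / 2) t
  unfold Pool.Agent.W184.zn
  push_cast
  rfl

end Pool.Agent.Results.MP_91b7ff_nt.ShortWindowsUpper
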