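import Pool.Agent.K7.H52.MD.G

set_option autoImplicit false

/-!
# MP_91b7ff_nt, exponents `k ≥ 2`: zeta is far, in `k`-th mean, from every exponential sum with a spectral gap

Unconditionally, let `k ≥ 2`, `ε > 0` and `0 ≤ α < β ≤ 1`. For all large `T`, all `T^ε ≤ H ≤ T` and all finite sums
`D(t) = ∑ b_j e^{-i λ_j t}` none of whose frequencies lies in `(α log H, β log H)` the integral of
`|ζ(1/2 + it) - D(t)|^k` over `[T, T + H]` is at least `c H (log T)^(k²/4)`, the order of magnitude expected for the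
`k`-th moment itself. Either `∑ |b_j| ≤ exp (T^κ)`, or the coefficients are arbitrary and the frequencies are
`H^(-α)`-separated and at most `exp (T^κ)` in number. In particular this holds for all Dirichlet polynomials
of length at most `H^α`, `α < 1`, with arbitrary coefficients. The gap may also be `(α log T, log T)`.

Proof: both sides are tested against `A^(k-2) conj G`, where `A^2` and `G` are truncations of powers of `ζ`, and `G` is
supported on products of small integers and one long factor in the gap. Smoothed mean values over windows with a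
Gaussian weight give a main term for `ζ` of order `(log T)^(k²/4)` and nothing for `D`; Young's inequality then gives
the lower bound. For the gap `(α log T, log T)` the functional equation reflects the frequencies. For arbitrary
coefficients the mean square of `D` is bounded a priori in terms of the distance itself.
-/

namespace Pool.Agent.Results.MP_91b7ff_nt.SpectralGap

open Filter MeasureTheory

theorem TP_fin (K : ℕ) (b : Fin K → ℂ) (lam : Fin K → ℝ) (t : ℝ) :
    Pool.Agent.K7.H52.MD.TP Finset.univ b (fun i => -lam i) t =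
      ∑ i, b i * Complex.exp (-(lam i * t) * Complex.I) := by
  unfold Pool.Agent.K7.H52.MD.TP Pool.Agent.R311.BS.ex
  refine Finset.sum_congr rfl fun i _ => ?_
  push_cast
  ring_nf

theorem TP_nat (N : ℕ) (b : ℕ → ℂ) (t : ℝ) :
    Pool.Agent.K7.H52.MD.TP (Finset.Icc 1 N) b (fun n => -Real.log n) t =
      ∑ n ∈ Finset.Icc 1 N, b n * (n : ℂ) ^ (-(t * Complex.I)) := by
  unfold Pool.Agent.K7.H52.MD.TP Pool.Agent.R311.BS.ex
  refine Finset.sum_congr rfl fun n hn => ?_
  rw [Finset.mem_Icc] at hn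
  have hn0 : (n : ℂ) ≠ 0 := by
    have : n ≠ 0 := by omega
    exact_mod_cast this
  rw [Complex.cpow_def_of_ne_zero hn0, ← Complex.natCast_log]
  congr 2
  push_cast
  ring

theorem int_eq (k : ℕ) (T H : ℝ) (hH : 0 ≤ H) (D : ℝ → ℂ) :
    ∫ t in Set.Icc T (T + H), ‖Pool.Agent.R311.SE.zl t - D t‖ ^ k =
      ∫ t in T..(T + H), ‖riemannZeta (1 / 2 + t * Complex.I) - D t‖ ^ k := by
  rw [intervalIntegral.integral_of_le (by linarith), ← integral_Icc_eq_integral_Ioc]
  rfl

theorem result (k : ℕ) (hk : 2 ≤ k) (ε α β : ℝ) (hε : 0 < ε) (hα : 0 ≤ α) (hαβ : α < β) (hβ : β ≤ 1) :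
    (∃ c κ : ℝ, 0 < c ∧ 0 < κ ∧ ∀ᶠ T : ℝ in atTop, ∀ H : ℝ, T ^ ε ≤ H → H ≤ T →
      ∀ (K : ℕ) (b : Fin K → ℂ) (lam : Fin K → ℝ),
      (((∀ i, lam i ∉ Set.Ioo (α * Real.log H) (β * Real.log H)) ∧
          (∑ i, ‖b i‖ ≤ Real.exp (T ^ κ) ∨
            ((K : ℝ) ≤ Real.exp (T ^ κ) ∧ ∀ i j, i ≠ j → H ^ (-α) ≤ |lam i - lam j|))) ∨
        ((∀ i, lam i ∉ Set.Ioo (α * Real.log T) (Real.log T)) ∧ ∑ i, ‖b i‖ ≤ Real.exp (T ^ κ))) →
      c * H * Real.log T ^ ((k : ℝ) ^ 2 / 4) ≤
        ∫ t in T..(T + H), ‖riemannZeta (1 / 2 + t * Complex.I) -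
          ∑ i, b i * Complex.exp (-(lam i * t) * Complex.I)‖ ^ k) ∧
    (∃ c : ℝ, 0 < c ∧ ∀ᶠ T : ℝ in atTop, ∀ H : ℝ, T ^ ε ≤ H → H ≤ T →
      ∀ (N : ℕ) (b : ℕ → ℂ), (N : ℝ) ≤ H ^ α →
      c * H * Real.log T ^ ((k : ℝ) ^ 2 / 4) ≤
        ∫ t in T..(T + H), ‖riemannZeta (1 / 2 + t * Complex.I) -
          ∑ n ∈ Finset.Icc 1 N, b n * (n : ℂ) ^ (-(t * Complex.I))‖ ^ k) := by
  obtain ⟨c, κ, hc, hκ, h⟩ := Pool.Agent.K7.H52.MD.main_gap k hk ε α β hε hα hαβ hβ
  refine ⟨⟨c, κ, hc, hκ, ?_⟩, ⟨c, hc, ?_⟩⟩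
  · filter_upwards [h, eventually_ge_atTop 1] with T hT hT1 H hH1 hH2 K b lam hyp
    have hH0 : 0 ≤ H := (by positivity : (0:ℝ) ≤ T ^ ε).trans hH1
    have key := hT H hH1 hH2 (Fin K) Finset.univ b lam (by
      have e1 : ∀ x y : ℝ, ∀ i, lam i ∉ Set.Ioo x y → lam i ≤ x ∨ y ≤ lam i := by
        intro x y i hi
        by_contra hcon
        rw [not_or, not_le, not_le] at hcon
        exact hi ⟨hcon.1, hcon.2⟩
      rcases hyp with ⟨h1, h2⟩ | ⟨h1, h2⟩
      · left
        refine ⟨fun i _ => e1 _ _ i (h1 i), ?_⟩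
        rcases h2 with h2 | ⟨h2, h3⟩
        · exact Or.inl h2
        · refine Or.inr ⟨by simpa using h2, fun i _ j _ hij => h3 i j hij⟩
      · right
        exact ⟨fun i _ => e1 _ _ i (h1 i), h2⟩)
    rw [int_eq k T H hH0] at key
    simp only [TP_fin] at key
    exact key
  · have ev : ∀ᶠ T : ℝ in atTop, T ≤ Real.exp (T ^ κ) := by
      have h1 := (isLittleO_log_rpow_atTop hκ).bound one_pos
      filter_upwards [h1, eventually_ge_atTop 1] with T hT hT1
      have hT0 : 0 < T := by linarith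
      rw [one_mul, Real.norm_of_nonneg (by positivity : (0:ℝ) ≤ T ^ κ)] at hT
      have h2 := (le_abs_self _).trans hT
      calc T = Real.exp (Real.log T) := (Real.exp_log hT0).symm
        _ ≤ _ := Real.exp_le_exp.mpr h2
    filter_upwards [h, ev, eventually_ge_atTop 1] with T hT hTe hT1 H hH1 hH2 N b hN
    have hT0 : 0 < T := by linarith
    have hH1' : 1 ≤ H := (Real.one_le_rpow hT1 hε.le).trans hH1
    have hH0 : 0 < H := by linarith
    have hα1 : α ≤ 1 := by linarith
    have hNT : (N : ℝ) ≤ T := by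
      calc (N : ℝ) ≤ H ^ α := hN
        _ ≤ H ^ (1 : ℝ) := Real.rpow_le_rpow_of_exponent_le hH1' hα1
        _ = H := Real.rpow_one H
        _ ≤ T := hH2
    have key := hT H hH1 hH2 ℕ (Finset.Icc 1 N) b (fun n => Real.log n) (by
      left
      refine ⟨fun i hi => ?_, Or.inr ⟨?_, ?_⟩⟩
      · left
        rw [Finset.mem_Icc] at hi
        have hi0 : (0:ℝ) < i := by exact_mod_cast hi.1
        have hiN : (i:ℝ) ≤ H ^ α := le_trans (by exact_mod_cast hi.2) hN
        calc Real.log i ≤ Real.log (H ^ α) := Real.log_le_log hi0 hiN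
          _ = α * Real.log H := Real.log_rpow hH0 _
      · simpa using hNT.trans hTe
      · intro i hi j hj hij
        rw [Finset.mem_Icc] at hi hj
        have hiN : (i:ℝ) ≤ H ^ α := le_trans (by exact_mod_cast hi.2) hN
        have hjN : (j:ℝ) ≤ H ^ α := le_trans (by exact_mod_cast hj.2) hN
        have h1 := Pool.Agent.R311.BS.log_gap hi.1 hj.1 hij (H ^ α) hiN hjN
        rwa [one_div, ← Real.rpow_neg hH0.le] at h1)
    rw [int_eq k T H hH0.le] at key
    simp only [TP_nat] at key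
    exact key

end Pool.Agent.Results.MP_91b7ff_nt.SpectralGap
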